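import Pool.Agent.helper17.MK.Spec

/-!
# The pair bound (row PB of the four clusters)
-/

set_option autoImplicit false

namespace Pool.Agent.MK

open Finset Real Filter Pool.Agent.helper39.MT Pool.Agent.helper85.FC

theorem PB_arith {a κ M pm Q V P1 P2 la lb U2 S S1 S2 U U1 : ℝ} (ha : 100 ≤ a) (hκ : 0 ≤ κ)
    (hM : 0 ≤ M) (hpm : pm ≤ (1 + 1 / 10 ^ 7) * M) (hQ : 0 ≤ Q) (hV : 0 < V) (h10 : 0 ≤ P1)
    (h1 : P1 ≤ κ * V) (h2 : P2 ≤ (κ * V) ^ 2) (hla : 0 < la) (hlb : 0 < lb) (hU2 : 0 ≤ U2)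
    (hU : U = 2 / (la * a) * (1 - 1 / 6000 + 1 / 10 ^ 7) / V)
    (hU1 : U1 = 2 / (lb * a) * (1 + 1 / 10 ^ 7) / V)
    (hS : S ≤ (1 + 1 / 10 ^ 7) * a * S1 + ((1 + 1 / 10 ^ 7) * a) ^ 2 / 2 * S2)
    (hS1 : S1 ≤ κ * pm * ((1 + 1 / 10 ^ 7) * P1 * Q * U) + 1 / a ^ 3)
    (hS2 : S2 ≤ M * ((1 + 1 / 10 ^ 7) * P2 * Q * (U1 ^ 2 * U2)) + 1 / a ^ 4)
    (hN : (1 + 1 / 10 ^ 7) ^ 6 * (2 / la * (1 - 1 / 6000 + 1 / 10 ^ 7) +
      1 / 2 * (2 / lb) ^ 2 * U2) ≤ 4 - 3 / 10 ^ 4) :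
    S ≤ (4 - 3 / 10 ^ 4) * κ ^ 2 * M * Q + 1 / a := by
  obtain ⟨ε, hε⟩ : ∃ ε : ℝ, ε = 1 / 10 ^ 7 := ⟨_, rfl⟩
  have hε0 : 0 < ε := by rw [hε]; norm_num
  have hε1 : ε ≤ 1 / 100 := by rw [hε]; norm_num
  rw [← hε] at hpm hU hU1 hS hS1 hS2 hN
  obtain ⟨c, hc⟩ : ∃ c : ℝ, c = 1 - 1 / 6000 + ε := ⟨_, rfl⟩
  have hc0 : 0 < c := by rw [hc]; linarith
  rw [← hc] at hU hN
  have ha0 : 0 < a := by linarith
  have hU0 : 0 ≤ U := by rw [hU]; positivity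
  have e1 : κ * pm * ((1 + ε) * P1 * Q * U) ≤ κ * ((1 + ε) * M) * ((1 + ε) * (κ * V) * Q * U) := by
    have hb : (1 + ε) * P1 * Q * U ≤ (1 + ε) * (κ * V) * Q * U := by gcongr
    have hb0 : 0 ≤ (1 + ε) * P1 * Q * U := by positivity
    calc κ * pm * ((1 + ε) * P1 * Q * U) ≤ κ * ((1 + ε) * M) * ((1 + ε) * P1 * Q * U) :=
          mul_le_mul_of_nonneg_right (mul_le_mul_of_nonneg_left hpm hκ) hb0
      _ ≤ _ := mul_le_mul_of_nonneg_left hb (by positivity)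
  have e1' : (1 + ε) * a * (κ * ((1 + ε) * M) * ((1 + ε) * (κ * V) * Q * U)) =
      (1 + ε) ^ 3 * (2 / la * c) * (κ ^ 2 * M * Q) := by
    rw [hU]; field_simp
  have e2 : M * ((1 + ε) * P2 * Q * (U1 ^ 2 * U2)) ≤ M * ((1 + ε) * (κ * V) ^ 2 * Q * (U1 ^ 2 * U2)) := by
    gcongr
  have e2' : ((1 + ε) * a) ^ 2 / 2 * (M * ((1 + ε) * (κ * V) ^ 2 * Q * (U1 ^ 2 * U2))) =
      (1 + ε) ^ 5 * (1 / 2 * (2 / lb) ^ 2 * U2) * (κ ^ 2 * M * Q) := by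
    rw [hU1]; field_simp
  have e3 : (1 + ε) * a * (1 / a ^ 3) + ((1 + ε) * a) ^ 2 / 2 * (1 / a ^ 4) ≤ 1 / a := by
    have h3 : (1 + ε) * a * (1 / a ^ 3) + ((1 + ε) * a) ^ 2 / 2 * (1 / a ^ 4) =
        ((1 + ε) / a + (1 + ε) ^ 2 / 2 / a) * (1 / a) := by field_simp
    rw [h3]
    have h4 : (1 + ε) / a + (1 + ε) ^ 2 / 2 / a ≤ 1 := by
      rw [← add_div, div_le_one ha0]
      nlinarith
    calc ((1 + ε) / a + (1 + ε) ^ 2 / 2 / a) * (1 / a) ≤ 1 * (1 / a) :=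
          mul_le_mul_of_nonneg_right h4 (by positivity)
      _ = 1 / a := one_mul _
  have hX0 : 0 ≤ κ ^ 2 * M * Q := by positivity
  have hp3 : (1 + ε) ^ 3 ≤ (1 + ε) ^ 6 := pow_le_pow_right₀ (by linarith) (by norm_num)
  have hp5 : (1 + ε) ^ 5 ≤ (1 + ε) ^ 6 := pow_le_pow_right₀ (by linarith) (by norm_num)
  have e4 : (1 + ε) ^ 3 * (2 / la * c) * (κ ^ 2 * M * Q) ≤ (1 + ε) ^ 6 * (2 / la * c) * (κ ^ 2 * M * Q) := by
    gcongr
  have e5 : (1 + ε) ^ 5 * (1 / 2 * (2 / lb) ^ 2 * U2) * (κ ^ 2 * M * Q) ≤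
      (1 + ε) ^ 6 * (1 / 2 * (2 / lb) ^ 2 * U2) * (κ ^ 2 * M * Q) := by
    gcongr
  have e6 := mul_le_mul_of_nonneg_right hN hX0
  have f1 : (1 + ε) * a * S1 ≤ (1 + ε) * a * (κ * ((1 + ε) * M) * ((1 + ε) * (κ * V) * Q * U)) +
      (1 + ε) * a * (1 / a ^ 3) := by
    rw [← mul_add]
    exact mul_le_mul_of_nonneg_left (hS1.trans (add_le_add e1 le_rfl)) (by positivity)
  have f2 : ((1 + ε) * a) ^ 2 / 2 * S2 ≤
      ((1 + ε) * a) ^ 2 / 2 * (M * ((1 + ε) * (κ * V) ^ 2 * Q * (U1 ^ 2 * U2))) +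
      ((1 + ε) * a) ^ 2 / 2 * (1 / a ^ 4) := by
    rw [← mul_add]
    exact mul_le_mul_of_nonneg_left (hS2.trans (add_le_add e2 le_rfl)) (by positivity)
  rw [e1'] at f1
  rw [e2'] at f2
  have e7 : (4 - 3 / 10 ^ 4) * κ ^ 2 * M * Q = (4 - 3 / 10 ^ 4) * (κ ^ 2 * M * Q) := by ring
  rw [e7]
  have e8 : (1 + ε) ^ 6 * (2 / la * c + 1 / 2 * (2 / lb) ^ 2 * U2) * (κ ^ 2 * M * Q) =
      (1 + ε) ^ 6 * (2 / la * c) * (κ ^ 2 * M * Q) +
      (1 + ε) ^ 6 * (1 / 2 * (2 / lb) ^ 2 * U2) * (κ ^ 2 * M * Q) := by ring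
  linarith

theorem PB_triples (h1 : PM_stmt) (h6 : TP_stmt) : ∃ L₁ : ℝ, ∀ L : ℝ, L₁ ≤ L →
    Mn c3 gi (RLS.PP (Real.exp (25 / 76 * L)) (Real.exp (13 / 38 * L))) ≤
      (Real.log (26 / 25) + 1 / 10 ^ 7) ^ 3 / 6 := by
  obtain ⟨C, hC, hPM⟩ := h1
  refine ⟨max 4 (C * 10 ^ 7 * (76 / 25)), fun L hL => ?_⟩
  have hL4 : 4 ≤ L := (le_max_left _ _).trans hL
  have hLC : C * 10 ^ 7 * (76 / 25) ≤ L := (le_max_right _ _).trans hL
  have hz2 : (2 : ℝ) ≤ Real.exp (25 / 76 * L) := by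
    have := Real.add_one_le_exp (25 / 76 * L)
    linarith
  have hzy : Real.exp (25 / 76 * L) ≤ Real.exp (13 / 38 * L) := Real.exp_le_exp.2 (by linarith)
  have h2 := (hPM _ _ hz2 hzy (fun _ => 1) (fun _ _ => zero_le_one) (fun _ _ _ _ _ => le_rfl)).2
  rw [Real.log_exp, Real.log_exp] at h2
  have h3 : 13 / 38 * L / (25 / 76 * L) = 26 / 25 := by
    rw [div_eq_iff (by positivity)]
    ring
  rw [h3, intervalIntegral.integral_const, smul_eq_mul, mul_one, sub_zero, mul_one] at h2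
  have h4 : C / (25 / 76 * L) ≤ 1 / 10 ^ 7 := by
    rw [div_le_iff₀ (by positivity)]
    have e : (1 : ℝ) / 10 ^ 7 * (25 / 76 * L) = (25 / 76) / 10 ^ 7 * L := by ring
    rw [e]
    have h5 := mul_le_mul_of_nonneg_left hLC (show (0 : ℝ) ≤ (25 / 76) / 10 ^ 7 by positivity)
    have e2 : (25 : ℝ) / 76 / 10 ^ 7 * (C * 10 ^ 7 * (76 / 25)) = C := by ring
    rw [e2] at h5
    exact h5
  have h5 : ∑ p ∈ RLS.PP (Real.exp (25 / 76 * L)) (Real.exp (13 / 38 * L)), gi p ≤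
      Real.log (26 / 25) + 1 / 10 ^ 7 := by
    have e : ∑ p ∈ RLS.PP (Real.exp (25 / 76 * L)) (Real.exp (13 / 38 * L)), gi p =
        ∑ p ∈ RLS.PP (Real.exp (25 / 76 * L)) (Real.exp (13 / 38 * L)), 1 / (p : ℝ) * 1 :=
      sum_congr rfl fun p _ => by rw [gi, mul_one]
    rw [e]
    linarith
  have hg : ∀ p ∈ RLS.PP (Real.exp (25 / 76 * L)) (Real.exp (13 / 38 * L)), 0 ≤ gi p := fun p _ => by
    unfold gi; positivity
  have h7 := (h6.2 gi _ hg).2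
  refine h7.trans ?_
  have h8 : (∑ p ∈ RLS.PP (Real.exp (25 / 76 * L)) (Real.exp (13 / 38 * L)), gi p) ^ 3 ≤
      (Real.log (26 / 25) + 1 / 10 ^ 7) ^ 3 := pow_le_pow_left₀ (sum_nonneg hg) h5 3
  linarith

theorem PB_log {k D₀ W : ℕ} {A B : Fin k → ℕ} (h : Std k D₀ A B W) :
    ∃ a₁ : ℝ, ∀ a : ℝ, a₁ ≤ a → ∀ (i : Fin k) (n : ℕ), 0 < n → wt 1 a n ≠ 0 →
      lam (A i * n + B i) ≤ (1 + 1 / 10 ^ 7) * a := by
  obtain ⟨AB, hAB⟩ : ∃ AB : ℕ, AB = ∑ i, (A i + B i) := ⟨_, rfl⟩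
  refine ⟨10 ^ 7 * (Real.log (AB + 1) + 1), fun a ha i n hn hw => ?_⟩
  have hAB0 : (0 : ℝ) ≤ AB := Nat.cast_nonneg _
  have hl0 : 0 ≤ Real.log ((AB : ℝ) + 1) := Real.log_nonneg (by linarith)
  have ha0 : 0 ≤ a := by
    have : (0 : ℝ) ≤ 10 ^ 7 * (Real.log (AB + 1) + 1) := by positivity
    linarith
  have hn2 := (F1_wt_support hn hw).2
  have hn1' : (1 : ℝ) ≤ n := by exact_mod_cast hn
  have hA : (0 : ℝ) < A i := by exact_mod_cast h.Apos i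
  have hB : (0 : ℝ) < B i := by exact_mod_cast h.Bpos i
  have h1 : ((A i : ℝ) * n + B i) ≤ (AB + 1) * Real.exp (a + 1) := by
    have h2 : (A i : ℝ) + B i ≤ AB := by
      rw [hAB]
      push_cast
      exact single_le_sum (f := fun i => (A i : ℝ) + B i) (fun i _ => by positivity) (mem_univ i)
    have h3 : (B i : ℝ) ≤ B i * n := le_mul_of_one_le_right hB.le hn1'
    calc (A i : ℝ) * n + B i ≤ A i * n + B i * n := by linarith
      _ = (A i + B i) * n := by ring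
      _ ≤ (AB + 1) * Real.exp (a + 1) :=
        mul_le_mul (by linarith) hn2.le (by linarith) (by linarith)
  have h2 : Real.log ((A i : ℝ) * n + B i) ≤ (1 + 1 / 10 ^ 7) * a := by
    calc Real.log ((A i : ℝ) * n + B i) ≤ Real.log ((AB + 1) * Real.exp (a + 1)) :=
          Real.log_le_log (by positivity) h1
      _ = Real.log (AB + 1) + (a + 1) := by
          rw [Real.log_mul (by positivity) (Real.exp_pos _).ne', Real.log_exp]
      _ ≤ _ := by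
          have e : (1 + 1 / 10 ^ 7) * a = a + 1 / 10 ^ 7 * a := by ring
          rw [e]
          have h3 := mul_le_mul_of_nonneg_left ha (show (0 : ℝ) ≤ 1 / 10 ^ 7 by positivity)
          have e2 : (1 : ℝ) / 10 ^ 7 * (10 ^ 7 * (Real.log (AB + 1) + 1)) = Real.log (AB + 1) + 1 := by
            ring
          rw [e2] at h3
          linarith
  unfold lam
  split_ifs
  · push_cast
    exact h2
  · positivity

theorem PB_PP {w w' z z' : ℝ} (hw : w' ≤ w) (hz : z ≤ z') : RLS.PP w z ⊆ RLS.PP w' z' := by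
  intro p hp
  rw [RLS.PP, mem_filter, mem_range] at hp ⊢
  refine ⟨?_, hp.2.1, lt_of_le_of_lt hw hp.2.2⟩
  have := Nat.floor_le_floor hz
  omega

/-- **PB**: the pair bound. -/
theorem PB (h1 : PM_stmt) (h2 : MP_stmt) (h3 : MW_stmt) (h4 : SV_stmt) (h5 : BH_stmt)
    (h6 : TP_stmt) (h7 : WV_stmt) (h8 : QB_stmt) (h9 : PA_stmt) (h10 : PT_stmt) (h11 : PC_stmt)
    (h12 : PN_stmt) : PB_stmt := by
  intro k D₀ W A B h hk hD
  obtain ⟨u₀, hu₀, hSV⟩ := h4 (1 / 10 ^ 7) (by norm_num)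
  obtain ⟨b, hBH⟩ := h5 (1 / 10 ^ 7) (by norm_num)
  have hu0 : 0 < u₀ := by linarith
  have hb0 : (0 : ℝ) ≤ b := Nat.cast_nonneg b
  obtain ⟨δ, hδdef⟩ : ∃ δ : ℝ, δ = 1 / (10 ^ 7 * (((b : ℝ) + 1) * u₀)) := ⟨_, rfl⟩
  have hδ0 : 0 < δ := by rw [hδdef]; positivity
  have hδe : δ * (((b : ℝ) + 1) * u₀) = 1 / 10 ^ 7 := by
    rw [hδdef]; field_simp
  have hδb : δ * b ≤ 1 / 10 ^ 7 := by
    rw [← hδe]
    have h13 : (b : ℝ) ≤ ((b : ℝ) + 1) * u₀ := by nlinarith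
    exact mul_le_mul_of_nonneg_left h13 hδ0.le
  have hδu : δ * u₀ ≤ 1 / 10 ^ 7 := by
    rw [← hδe]
    have h13 : u₀ ≤ ((b : ℝ) + 1) * u₀ := by nlinarith
    exact mul_le_mul_of_nonneg_left h13 hδ0.le
  have hδb0 : 0 ≤ δ * b := by positivity
  have hδ1 : δ ≤ 1 / 10 ^ 7 := by nlinarith
  obtain ⟨la, hla⟩ : ∃ la : ℝ, la = 1 / 2 - 3 * (1 / 10 ^ 7) - δ * b := ⟨_, rfl⟩
  obtain ⟨lb, hlb⟩ : ∃ lb : ℝ, lb = 37 / 152 - (3 * (1 / 10 ^ 7) + δ * b) / 2 := ⟨_, rfl⟩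
  have hla1 : 1 / 2 - 1 / 10 ^ 6 ≤ la := by rw [hla]; linarith
  have hlb1 : 37 / 152 - 1 / 10 ^ 6 ≤ lb := by rw [hlb]; linarith
  have hla2 : la ≤ 1 / 2 := by rw [hla]; linarith
  have hlb2 : lb ≤ 37 / 152 := by rw [hlb]; linarith
  have hla0 : 0 < la := by linarith
  have hlb0 : 0 < lb := by linarith
  obtain ⟨wA, hwA, hSVA⟩ := hSV (la / δ) (by
    rw [le_div_iff₀ hδ0, mul_comm]; linarith)
  obtain ⟨wB, hwB, hSVB⟩ := hSV (lb / δ) (by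
    rw [le_div_iff₀ hδ0, mul_comm]; linarith)
  obtain ⟨a₁, hPA⟩ := h9 k D₀ W A B h hk hD b δ (1 / 10 ^ 7) (1 / 10 ^ 7) la hδ0 (by linarith)
    (by norm_num) (by norm_num) (by norm_num) (by norm_num) hla0.le (by rw [hla]; linarith)
  obtain ⟨a₂, hPT⟩ := h10 k D₀ W A B h hk hD b δ (1 / 10 ^ 7) (1 / 10 ^ 7) lb (13 / 38 * la) hδ0
    (by linarith) (by norm_num) (by norm_num) (by norm_num) (by norm_num) hlb0.le
    (by positivity) (by linarith) (by rw [hla, hlb]; linarith)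
  obtain ⟨L₁, hTr⟩ := PB_triples h1 h6
  obtain ⟨a₃, hmass⟩ := mass_bounds
  obtain ⟨a₄, hlog⟩ := PB_log h
  have hpm : ∀ᶠ a : ℝ in atTop, ∀ i, |pmass (a + Real.log (A i)) - mass a| ≤ 1 / 10 ^ 8 :=
    eventually_all.2 fun i => F1_mass (A i) (h.Apos i) (by norm_num)
  obtain ⟨aa, haa⟩ := eventually_atTop.1 (hpm.and ((eventually_ge_atTop a₁).and
    ((eventually_ge_atTop a₂).and ((eventually_ge_atTop a₃).and ((eventually_ge_atTop a₄).and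
    ((eventually_ge_atTop (L₁ / la)).and ((eventually_ge_atTop (wA / δ)).and
    ((eventually_ge_atTop (wB / δ)).and ((eventually_ge_atTop ((W : ℝ) / δ)).and
    (eventually_ge_atTop (100 : ℝ)))))))))))
  refine ⟨aa, fun a ha R hR y ζ m m' hmm hζ1 hζ2 hζ3 => ?_⟩
  obtain ⟨hpm, ha1, ha2, ha3, ha4, haL, haA, haB, haW, ha100⟩ := haa a ha
  have ha0 : 0 < a := by linarith
  have hexp : δ * a ≤ Real.exp (δ * a) := by
    have := Real.add_one_le_exp (δ * a)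
    linarith
  have hwA' : wA ≤ Real.exp (δ * a) := by
    rw [div_le_iff₀ hδ0, mul_comm] at haA
    exact haA.trans hexp
  have hwB' : wB ≤ Real.exp (δ * a) := by
    rw [div_le_iff₀ hδ0, mul_comm] at haB
    exact haB.trans hexp
  have hwW' : (W : ℝ) ≤ Real.exp (δ * a) := by
    rw [div_le_iff₀ hδ0, mul_comm] at haW
    exact haW.trans hexp
  have hL1 : L₁ ≤ la * a := by
    rw [div_le_iff₀ hla0, mul_comm] at haL
    exact haL
  have hδa : 0 ≤ δ * a := by positivity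
  have hw1 : 1 ≤ Real.exp (δ * a) := Real.one_le_exp hδa
  -- the sieve main terms
  have hA := (hSVA (Real.exp (δ * a)) (la * a) hwA' (by
    rw [Real.log_exp]; field_simp)).1
  have hB := (hSVB (Real.exp (δ * a)) (lb * a) hwB' (by
    rw [Real.log_exp]; field_simp)).2
  have h2W : 2 ∣ W := h.small 2 Nat.prime_two (by omega)
  obtain ⟨hW1, hW2, hW3, hW4, hV⟩ := h7 W (Real.exp (δ * a)) h.Wpos h2W hwW'
  obtain ⟨V, hVdef⟩ : ∃ V : ℝ, V = Vw (Real.exp (δ * a)) := ⟨_, rfl⟩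
  rw [← hVdef] at hA hB hW1 hW2 hV
  obtain ⟨U, hU⟩ : ∃ U : ℝ, U = 2 / (la * a) * (1 - 1 / 6000 + 1 / 10 ^ 7) / V := ⟨_, rfl⟩
  obtain ⟨U1, hU1⟩ : ∃ U1 : ℝ, U1 = 2 / (lb * a) * (1 + 1 / 10 ^ 7) / V := ⟨_, rfl⟩
  have hU0 : 0 ≤ U := by
    rw [hU]
    have : (0 : ℝ) ≤ 1 - 1 / 6000 + 1 / 10 ^ 7 := by norm_num
    positivity
  have hA' : Mn (lM (la * a) (Real.exp (25 / 76 * (la * a)))) gi
      (RLS.PP (Real.exp (δ * a)) (Real.exp (13 / 38 * (la * a)))) ≤ U := by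
    rw [hU, le_div_iff₀ hV, mul_comm]; exact hA
  have hB' : Mn (RLS.lam true (lb * a)) gi
      (RLS.PP (Real.exp (δ * a)) (Real.exp (lb * a / 3))) ≤ U1 := by
    rw [hU1, le_div_iff₀ hV, mul_comm]; exact hB
  have hC' := hTr (la * a) hL1
  obtain ⟨l₀, hl₀⟩ := hBH (Real.exp (δ * a)) hw1
  -- order of the points
  have o1 : δ * a ≤ lb * a / 3 := by
    have : δ * a ≤ (lb / 3) * a := mul_le_mul_of_nonneg_right (by linarith) ha0.le
    linarith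
  have o2 : lb * a / 3 ≤ a / 8 := by
    have : lb * a ≤ 37 / 152 * a := mul_le_mul_of_nonneg_right hlb2 ha0.le
    linarith
  have o3 : a / 8 ≤ 25 / 76 * (la * a) := by
    have : (1 / 2 - 1 / 10 ^ 6) * a ≤ la * a := mul_le_mul_of_nonneg_right hla1 ha0.le
    linarith
  have o4 : 25 / 76 * (la * a) ≤ 13 / 38 * (la * a) := by
    have : 0 ≤ la * a := by positivity
    linarith
  have o5 : 13 / 38 * (la * a) ≤ a / 5 := by
    have : la * a ≤ 1 / 2 * a := mul_le_mul_of_nonneg_right hla2 ha0.le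
    linarith
  have hlaa : 0 ≤ la * a := by positivity
  have hlba : 0 ≤ lb * a := by positivity
  have hζ2' : ∀ σ, ζ σ ≠ 0 → (dd (prP W R) σ : ℝ) ≤ Real.exp (1 / 10 ^ 7 * a) ∧
      ∀ p, σ p ≠ some m ∧ σ p ≠ some m' := by
    intro σ hσ
    obtain ⟨h13, h14⟩ := hζ2 σ hσ
    refine ⟨?_, h14⟩
    rw [show (1 : ℝ) / 10 ^ 7 * a = a / 10 ^ 7 by ring]
    exact h13
  -- the two sums
  have hS1 := hPA a ha1 R hR ζ m m' l₀ (lM (la * a) (Real.exp (25 / 76 * (la * a))))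
    (RLS.PP (Real.exp (δ * a)) (Real.exp (13 / 38 * (la * a)))) U hmm hζ1 hζ2' hl₀
    (PB_PP le_rfl (Real.exp_le_exp.2 o5)) (fun K hK => ⟨(h2 _ _).1 K, fun hne =>
      h3.2 (la * a) (Real.exp (δ * a)) (Real.exp (25 / 76 * (la * a)))
        (Real.exp (13 / 38 * (la * a))) K hlaa (Real.one_le_exp (by positivity)) (by
          rw [Real.log_exp, Real.log_exp]; linarith) hK hne⟩) hU0 hA'
  have hS2 := hPT a ha2 R hR ζ m m' l₀ (RLS.lam true (lb * a))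
    (RLS.PP (Real.exp (δ * a)) (Real.exp (lb * a / 3)))
    (RLS.PP (Real.exp (25 / 76 * (la * a))) (Real.exp (13 / 38 * (la * a))))
    U1 ((Real.log (26 / 25) + 1 / 10 ^ 7) ^ 3 / 6) hmm hζ1 hζ2' hl₀
    (PB_PP le_rfl (Real.exp_le_exp.2 o2)) (PB_PP (Real.exp_le_exp.2 o3) (by
      rw [mul_assoc])) (fun K hK => ⟨RLS.LA_all.2.2.2 _ _ K, fun hne =>
      h3.1 (lb * a) (Real.exp (δ * a)) (Real.exp (lb * a / 3)) K hlba hK hne⟩)
    (fun T _ => (RLS.SI_all (lb * a) T).1) hB' hC'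
  -- the pointwise bound, summed
  have ha'0 : 0 ≤ (1 + 1 / 10 ^ 7) * a := by positivity
  have hsum : ∑ n ∈ Ioc 0 (NN 1 a), wt 1 a n * FF (prP W R) y (pat A B (PS W R) n) ^ 2 *
      (lam (A m * n + B m) * lam (A m' * n + B m')) ≤
      (1 + 1 / 10 ^ 7) * a * ∑ n ∈ Ioc 0 (NN 1 a), wt 1 a n * lam (A m * n + B m) *
        XA (prP W R) ζ l₀ (lM (la * a) (Real.exp (25 / 76 * (la * a)))) (Real.exp (δ * a))
          (RLS.PP (Real.exp (δ * a)) (Real.exp (13 / 38 * (la * a)))) m m' (pat A B (PS W R) n) +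
      ((1 + 1 / 10 ^ 7) * a) ^ 2 / 2 * ∑ n ∈ Ioc 0 (NN 1 a), wt 1 a n *
        XB (prP W R) ζ l₀ (RLS.lam true (lb * a)) (Real.exp (δ * a))
          (RLS.PP (Real.exp (δ * a)) (Real.exp (lb * a / 3)))
          (RLS.PP (Real.exp (25 / 76 * (la * a))) (Real.exp (13 / 38 * (la * a)))) m m'
          (pat A B (PS W R) n) := by
    rw [mul_sum, mul_sum, ← sum_add_distrib]
    refine sum_le_sum fun n hn => ?_
    have hn0 : 0 < n := (mem_Ioc.1 hn).1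
    exact h11 k D₀ W A B h a ((1 + 1 / 10 ^ 7) * a) R n (by linarith) hR hn0 ha'0
      (fun hw i => hlog a ha4 i n hn0 hw) y ζ m m' l₀ (Real.exp (δ * a)) (Real.exp (lb * a / 3))
      (Real.exp (25 / 76 * (la * a))) (Real.exp (13 / 38 * (la * a))) (la * a) (lb * a) hmm hw1
      (Real.exp_le_exp.2 o1) (Real.exp_le_exp.2 (o2.trans o3)) (Real.exp_le_exp.2 o4) hl₀.one
      hl₀.pos hζ3
  -- the constants
  obtain ⟨hM1, hM2⟩ := hmass a ha3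
  have hφ : 0 < (Nat.totient W : ℝ) := by exact_mod_cast Nat.totient_pos.2 h.Wpos
  have hκ0 : 0 ≤ (W : ℝ) / Nat.totient W := by positivity
  have hpm' : pmass (a + Real.log (A m)) ≤ (1 + 1 / 10 ^ 7) * mass a := by
    have h13 := (abs_le.1 (hpm m)).2
    have e : (1 + 1 / 10 ^ 7) * mass a = mass a + 1 / 10 ^ 7 * mass a := by ring
    rw [e]
    linarith
  have hQ := (h8 (PS W R) k (prP W R) (a ^ 3) ζ (fun p => by
    have hp := mem_PS.1 p.2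
    have h13 : D₀ < (p : ℕ) := by
      by_contra hcon
      exact hp.2.2 (h.small _ hp.2.1 (not_lt.1 hcon))
    show 5 ≤ (p : ℕ)
    omega) (by positivity) hζ1).1
  have hlog0 : 0 ≤ Real.log (26 / 25) := Real.log_nonneg (by norm_num)
  have hfin := PB_arith (a := a) (κ := (W : ℝ) / Nat.totient W) (M := mass a)
    (pm := pmass (a + Real.log (A m))) (Q := QF (prP W R) ζ) (V := V) (la := la) (lb := lb)
    (U2 := (Real.log (26 / 25) + 1 / 10 ^ 7) ^ 3 / 6) ha100 hκ0 (by linarith) hpm' hQ hV hW3 hW1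
    hW2 hla0 hlb0 (by positivity) hU hU1 hsum hS1 hS2 (h12 la lb hla1 hlb1)
  exact hfin

end Pool.Agent.MK
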